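import Pool.Agent.H71.CR.Stmt

/-!
# Board cwr_modules, module RPX: every list can be answered
-/

set_option autoImplicit false

open Set Pool.Agent.TK Pool.Agent.H71.VK

namespace Pool.Agent.CR

private theorem h66_rpx {C ι : Type} {M : St (C × ℕ)} {B : ι → Set ℕ} {z : ι → List ℕ}
    {R : ι → St (C × ℕ)} {Δ : Set ι}
    (hext : ∀ (f : ℕ → Rk) (p : List (ℕ × ℕ)), Ps M B z R Δ (Rk.sup f) p → ∀ m,
      (∀ a, ∃ a', Ps M B z R Δ (f m) ((a, a') :: p)) ∧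
      ∀ a', ∃ a, Ps M B z R Δ (f m) ((a, a') :: p)) (r : Rk) :
    ∀ (x : List ℕ) (k : ℕ), Ps M B z R Δ (Rk.sucN (k + x.length) r) [] →
      ∃ q : List (ℕ × ℕ), q.map Prod.fst = x ∧ Ps M B z R Δ (Rk.sucN k r) q
  | [], k, h => ⟨[], rfl, h⟩
  | a :: x, k, h => by
    obtain ⟨q, hq, h1⟩ := h66_rpx hext r x (k + 1) (by
      have e : k + 1 + x.length = k + (a :: x).length := by
        simp only [List.length_cons]
        omega
      rw [e]
      exact h)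
    obtain ⟨a', ha'⟩ := (hext (fun _ => Rk.sucN k r) q h1 0).1 a
    exact ⟨(a, a') :: q, by simp [hq], ha'⟩

theorem pf_RPX {C : Type} (hPSE : T_PSE C) : T_RPX C := by
  intro ι c0 n b M B z R hRA T l
  obtain ⟨hnil, hrle, -, -, hext⟩ := hPSE ι c0 n b M B z R hRA T
  have h0 : Ps M B z R T (Rk.lim (Rk.lim om2)) [] :=
    hrle _ _ _ hRA.base (by simpa [dg] using hnil [] (by simp))
  have h1 : Ps M B z R T (Rk.sucN (0 + l.length) (Rk.lim om2)) [] :=
    hrle _ _ _ (RLe.lim' _ _) h0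
  obtain ⟨q, hq, hp⟩ := h66_rpx hext _ l 0 h1
  have h2 : Ps M B z R T om2 q := hrle _ _ _ (RLe.lim _) hp
  refine ⟨q, hq, hrle _ _ _ ?_ h2⟩
  exact RLe.sup (fun n => (Rk.lim^[n]) Rk.zero) 0

end Pool.Agent.CR
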